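import Mathlib
import Pool.Agent.Lib.MP_a9945b_al.Final

/-!
Every supersolvable group is flawed: for every complex reductive group `G` and every maximal
compact subgroup `K` of `G`, the `G`-character variety strong deformation retracts onto the
set of classes of the homomorphisms with values in `K`.

The definitions used in the statement are in `Pool.Agent.Lib.MP_a9945b_al.Defs`.
-/

set_option autoImplicit false

namespace Pool.Agent.Results.MP_a9945b_al.SupersolvableFlawed

open Pool.Agent.Lib.MP_a9945b_al

/-- Every supersolvable group is flawed. (Supersolvable groups are finitely generated.) -/
theorem result : ∀ (Γ : Type) [Group Γ], Supersolvable Γ → Flawed Γ :=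
  fun _ _ h => flawed_of_supersolvable h

end Pool.Agent.Results.MP_a9945b_al.SupersolvableFlawed
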